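import Pool.Agent.Helper97.Tate.Goals

/-!
# FewPoints (MP_d3128a_ag): packet TATE-CUV (the germs lie on the cubic)
-/

set_option autoImplicit false

namespace Pool.Agent.Helper78.Tate.CUV

open Pool.Agent.Helper97.Tate

noncomputable section

variable {k : Type} [Field k]

/-- the value of the theta function at `x`, a power series in `q` -/
def av (x : kˣ) (r : ℤ) : OO k := PowerSeries.coeff 0 (evx x (Th 3 r 1))

theorem ccK (h2 : S_EVC) (x : kˣ) (r : Fin 3) :
    PowerSeries.constantCoeff (ph x r) = algebraMap (OO k) (KK k) (av x ((r : ℕ) : ℤ)) := by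
  unfold ph av
  rw [← PowerSeries.coeff_zero_eq_constantCoeff_apply]
  exact (h2 k x _ 0 0).2.1

theorem av_one (h1 : S_THC) (h2 : S_EVC) (x : kˣ) :
    PowerSeries.constantCoeff (av x 1) = (x : k) := by
  have e1 := (h2 k x (Th 3 1 1) 0 0).1
  have e2 := (h1 k 3 1 1 one_ne_zero (by norm_num) (by norm_num)).2.2
  rw [if_neg (by norm_num)] at e2
  unfold av
  rw [← PowerSeries.coeff_zero_eq_constantCoeff_apply, e1,
    PowerSeries.coeff_zero_eq_constantCoeff_apply, e2]
  show (Finsupp.single (1 : ℤ) (1 : k)).sum _ = _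
  rw [Finsupp.sum_single_index]
  · simp
  · simp

theorem av_two (h1 : S_THC) (h2 : S_EVC) (x : kˣ) :
    PowerSeries.constantCoeff (av x 2) = (x : k) ^ 2 := by
  have e1 := (h2 k x (Th 3 2 1) 0 0).1
  have e2 := (h1 k 3 2 1 one_ne_zero (by norm_num) (by norm_num)).2.2
  rw [if_neg (by norm_num)] at e2
  unfold av
  rw [← PowerSeries.coeff_zero_eq_constantCoeff_apply, e1,
    PowerSeries.coeff_zero_eq_constantCoeff_apply, e2]
  show (Finsupp.single (2 : ℤ) (1 : k)).sum _ = _
  rw [Finsupp.sum_single_index]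
  · have : x ^ (2 : ℤ) = x ^ (2 : ℕ) := by
      rw [← zpow_natCast]
      rfl
    rw [this]
    simp
  · simp

theorem alg_ne {u : OO k} (h : PowerSeries.constantCoeff u ≠ 0) : algebraMap (OO k) (KK k) u ≠ 0 := by
  intro h0
  apply h
  have : u = 0 := (IsFractionRing.injective (OO k) (KK k)) (by rw [h0, map_zero])
  rw [this, map_zero]

theorem cub_zero (h2 : S_EVC) (α β γ : OO k) (hc : IsCub α β γ) (x : kˣ) :
    MvPolynomial.aeval (ph x) (cubK α β γ) = 0 := by
  have e1 := congrArg (evK x) hc.2.2.2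
  simp only [map_add, map_mul, map_pow, (h2 k x 0 0 0).2.2] at e1
  unfold cubK cub
  simp only [map_sub, map_mul, map_pow, MvPolynomial.aeval_X, MvPolynomial.aeval_C]
  have c1 : ∀ a : KK k, algebraMap (KK k) (PowerSeries (KK k)) a = PowerSeries.C a := fun a => rfl
  rw [c1, c1, c1]
  have p0 : ph x 0 = evK x (Th 3 0 1) := rfl
  have p1 : ph x 1 = evK x (Th 3 1 1) := rfl
  have p2 : ph x 2 = evK x (Th 3 2 1) := rfl
  rw [p0, p1, p2, e1]
  ring

/-- **CUV** -/
theorem t (h1 : S_THC) (h2 : S_EVC) : S_CUV := by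
  intro k _ α β γ hc x w w'
  have a0 : PowerSeries.constantCoeff α = 0 := PowerSeries.X_dvd_iff.mp hc.1
  refine ⟨cub_zero h2 α β γ hc x, ?_, ?_⟩
  · have e1 : MvPolynomial.pderiv 0 (cubK α β γ) =
        MvPolynomial.X 1 * MvPolynomial.X 2 -
          MvPolynomial.C (algebraMap (OO k) (KK k) α) * (3 * MvPolynomial.X 0 ^ 2) := by
      unfold cubK cub
      simp only [map_sub, Derivation.leibniz, Derivation.leibniz_pow, MvPolynomial.pderiv_C,
        MvPolynomial.pderiv_X_self, MvPolynomial.pderiv_X_of_ne (show (1 : Fin 3) ≠ 0 by decide),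
        MvPolynomial.pderiv_X_of_ne (show (2 : Fin 3) ≠ 0 by decide), smul_eq_mul, mul_zero,
        smul_zero, add_zero, zero_add, sub_zero, mul_one, nsmul_eq_mul]
      push_cast
      ring
    rw [e1]
    simp only [map_sub, map_mul, map_pow, MvPolynomial.aeval_X, MvPolynomial.aeval_C, map_ofNat]
    have c1 : ∀ a : KK k, algebraMap (KK k) (PowerSeries (KK k)) a = PowerSeries.C a :=
      fun a => rfl
    rw [c1, PowerSeries.constantCoeff_C, ccK h2, ccK h2, ccK h2, ← map_pow, ← map_mul,
      ← map_ofNat (algebraMap (OO k) (KK k)) 3, ← map_mul, ← map_mul, ← map_sub]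
    apply alg_ne
    rw [map_sub, map_mul, map_mul, a0, zero_mul, sub_zero]
    show PowerSeries.constantCoeff (av x 1) * PowerSeries.constantCoeff (av x 2) ≠ 0
    rw [av_one h1 h2, av_two h1 h2]
    exact mul_ne_zero x.ne_zero (pow_ne_zero _ x.ne_zero)
  · intro hw
    rw [LinearIndependent.pair_iff]
    intro s t hst
    have q1 := congrFun hst 1
    have q2 := congrFun hst 2
    simp only [Pi.add_apply, Pi.smul_apply, smul_eq_mul, Pi.zero_apply, ccK h2] at q1 q2
    have d0 : algebraMap (OO k) (KK k) (av w 1 * av w' 2 - av w 2 * av w' 1) ≠ 0 := by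
      apply alg_ne
      rw [map_sub, map_mul, map_mul, av_one h1 h2, av_two h1 h2, av_one h1 h2, av_two h1 h2]
      have : (w : k) * (w' : k) ^ 2 - (w : k) ^ 2 * (w' : k) = w * w' * (w' - w) := by ring
      rw [this]
      refine mul_ne_zero (mul_ne_zero w.ne_zero w'.ne_zero) (sub_ne_zero.mpr ?_)
      intro h
      exact hw (Units.ext h.symm)
    rw [map_sub, map_mul, map_mul] at d0
    have q1' : s * algebraMap (OO k) (KK k) (av w 1) + t * algebraMap (OO k) (KK k) (av w' 1) = 0 := q1
    have q2' : s * algebraMap (OO k) (KK k) (av w 2) + t * algebraMap (OO k) (KK k) (av w' 2) = 0 := q2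
    constructor
    · apply (mul_eq_zero.mp (?_ : s * (algebraMap (OO k) (KK k) (av w 1) *
        algebraMap (OO k) (KK k) (av w' 2) - algebraMap (OO k) (KK k) (av w 2) *
        algebraMap (OO k) (KK k) (av w' 1)) = 0)).resolve_right d0
      linear_combination algebraMap (OO k) (KK k) (av w' 2) * q1' -
        algebraMap (OO k) (KK k) (av w' 1) * q2'
    · apply (mul_eq_zero.mp (?_ : t * (algebraMap (OO k) (KK k) (av w 1) *
        algebraMap (OO k) (KK k) (av w' 2) - algebraMap (OO k) (KK k) (av w 2) *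
        algebraMap (OO k) (KK k) (av w' 1)) = 0)).resolve_right d0
      linear_combination algebraMap (OO k) (KK k) (av w 1) * q2' -
        algebraMap (OO k) (KK k) (av w 2) * q1'

end

end Pool.Agent.Helper78.Tate.CUV
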