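import Pool.Agent.Helper97.Tate.Goals

/-!
# FewPoints (MP_d3128a_ag): packet TATE-IND (linear independence at `q = 0`)
-/

set_option autoImplicit false

namespace Pool.Agent.Helper78.Tate.IND

open Pool.Agent.Helper97.Tate

noncomputable section

variable (k : Type) [Field k]

/-- the polynomial `X^3 + 1` -/
def gp : Polynomial k := Polynomial.X ^ 3 + Polynomial.C 1

/-- the quotient -/
abbrev RR : Type := AdjoinRoot (gp k)

theorem root3 : (AdjoinRoot.root (gp k)) ^ 3 = -1 := by
  have h := AdjoinRoot.eval₂_root (gp k)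
  unfold gp at h
  rw [Polynomial.eval₂_add, Polynomial.eval₂_pow, Polynomial.eval₂_X, Polynomial.eval₂_C,
    map_one] at h
  exact eq_neg_of_add_eq_zero_left h

/-- the class of `X` as a unit -/
def tu : (RR k)ˣ where
  val := AdjoinRoot.root (gp k)
  inv := -(AdjoinRoot.root (gp k)) ^ 2
  val_inv := by
    have := root3 k
    linear_combination -this
  inv_val := by
    have := root3 k
    linear_combination -this

/-- `T ↦ X` modulo `X^3 + 1` -/
def phi : LaurentPolynomial k →+* RR k :=
  LaurentPolynomial.eval₂ (AdjoinRoot.of (gp k)) (tu k)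

theorem phi_C (a : k) : phi k (LaurentPolynomial.C a) = AdjoinRoot.of (gp k) a :=
  LaurentPolynomial.eval₂_C _ _ _

theorem phi_T (n : ℤ) : phi k (LaurentPolynomial.T n) = (((tu k) ^ n : (RR k)ˣ) : RR k) := by
  unfold phi
  rw [LaurentPolynomial.eval₂_T]

theorem phi_U : phi k (1 + LaurentPolynomial.T 3) = 0 := by
  rw [map_add, map_one, phi_T]
  have : (tu k) ^ (3 : ℤ) = (tu k) ^ (3 : ℕ) := by
    rw [← zpow_natCast]
    rfl
  rw [this, Units.val_pow_eq_pow_val]
  show 1 + (AdjoinRoot.root (gp k)) ^ 3 = 0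
  rw [root3, add_neg_cancel]

theorem gp_deg : (gp k).natDegree = 3 := by
  unfold gp
  exact Polynomial.natDegree_X_pow_add_C

/-- **IND** -/
theorem t : S_IND := by
  intro k _ d f hd hs hf
  classical
  by_contra hne
  -- the smallest exponent of `X_0`
  have hex : ∃ a : ℕ, ∃ e ∈ f.support, e 0 = a := by
    obtain ⟨e, he⟩ := MvPolynomial.ne_zero_iff.mp hne
    exact ⟨e 0, e, MvPolynomial.mem_support_iff.mpr he, rfl⟩
  have hmin := fun a (ha : a < Nat.find hex) => Nat.find_min hex ha
  obtain ⟨e0, he0, hea⟩ := Nat.find_spec hex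
  generalize Nat.find hex = a0 at hmin hea
  have hge : ∀ e ∈ f.support, a0 ≤ e 0 := by
    intro e he
    by_contra hlt
    exact hmin (e 0) (by omega) ⟨e, he, rfl⟩
  have hdeg : ∀ e ∈ f.support, e 0 + e 1 + e 2 = d := by
    intro e he
    have h1 : e.degree = d := by
      rw [Finsupp.degree_eq_weight_one]
      exact hd (MvPolynomial.mem_support_iff.mp he)
    rw [Finsupp.degree_eq_sum, Fin.sum_univ_three] at h1
    exact h1
  set U : LaurentPolynomial k := 1 + LaurentPolynomial.T 3 with hU
  have hU0 : U ≠ 0 := by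
    intro h0
    have h1 : (U : LaurentPolynomial k).coeff 0 = 0 := by rw [h0]; rfl
    rw [hU] at h1
    have h2 : (1 + LaurentPolynomial.T 3 : LaurentPolynomial k).coeff 0 = 1 := by
      have h3 : (1 : LaurentPolynomial k) = LaurentPolynomial.T 0 := LaurentPolynomial.T_zero.symm
      rw [h3, AddMonoidAlgebra.coeff_add, Finsupp.add_apply, LaurentPolynomial.T_apply,
        LaurentPolynomial.T_apply, if_pos rfl, if_neg (by norm_num), add_zero]
    rw [h2] at h1
    exact one_ne_zero h1
  have e1 : MvPolynomial.aeval ![U, LaurentPolynomial.T 1, LaurentPolynomial.T 2] f =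
      U ^ a0 * ∑ e ∈ f.support, LaurentPolynomial.C (MvPolynomial.coeff e f) *
        (U ^ (e 0 - a0) * (LaurentPolynomial.T 1 ^ (e 1) * LaurentPolynomial.T 2 ^ (e 2))) := by
    rw [MvPolynomial.aeval_def, MvPolynomial.eval₂_eq', Finset.mul_sum]
    apply Finset.sum_congr rfl
    intro e he
    rw [Fin.prod_univ_three]
    have h3 : U ^ (e 0) = U ^ a0 * U ^ (e 0 - a0) := by
      rw [← pow_add, Nat.add_sub_cancel' (hge e he)]
    simp only [Matrix.cons_val_zero, Matrix.cons_val_one, Matrix.cons_val]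
    rw [h3]
    show LaurentPolynomial.C _ * _ = _
    ring
  rw [e1] at hf
  have e2 := (mul_eq_zero.mp hf).resolve_left (pow_ne_zero _ hU0)
  have e3 := congrArg (phi k) e2
  rw [map_sum, map_zero] at e3
  -- the polynomial of degree at most two
  let p : Polynomial k := ∑ e ∈ f.support.filter (fun e : Fin 3 →₀ ℕ => e 0 = a0),
    Polynomial.C (MvPolynomial.coeff e f) * Polynomial.X ^ (2 - e 1)
  have hterm : ∀ e ∈ f.support, phi k (LaurentPolynomial.C (MvPolynomial.coeff e f) *
        (U ^ (e 0 - a0) * (LaurentPolynomial.T 1 ^ (e 1) * LaurentPolynomial.T 2 ^ (e 2)))) *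
        (AdjoinRoot.root (gp k)) ^ 2 =
      (if e 0 = a0 then AdjoinRoot.mk (gp k) (Polynomial.C (MvPolynomial.coeff e f) *
        Polynomial.X ^ (2 - e 1)) else 0) * (AdjoinRoot.root (gp k)) ^ (2 * (d - a0)) := by
    intro e he
    rw [map_mul, map_mul, map_mul, map_pow, map_pow, map_pow, phi_U, phi_T, phi_T, phi_C]
    by_cases h : e 0 = a0
    · rw [if_pos h, h, Nat.sub_self, pow_zero, one_mul, map_mul, map_pow, AdjoinRoot.mk_X,
        AdjoinRoot.mk_C]
      have v1 : (((tu k) ^ (1 : ℤ) : (RR k)ˣ) : RR k) = AdjoinRoot.root (gp k) := by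
        rw [zpow_one]
        rfl
      have v2 : (((tu k) ^ (2 : ℤ) : (RR k)ˣ) : RR k) = AdjoinRoot.root (gp k) ^ 2 := by
        have : (tu k) ^ (2 : ℤ) = (tu k) ^ (2 : ℕ) := by
          rw [← zpow_natCast]
          rfl
        rw [this, Units.val_pow_eq_pow_val]
        rfl
      rw [v1, v2, ← pow_mul, mul_assoc, mul_assoc, mul_assoc, ← pow_add, ← pow_add, ← pow_add]
      congr 2
      have h4 := hdeg e he
      have h5 := hs e he
      omega
    · rw [if_neg h, zero_pow (by have := hge e he; omega)]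
      ring
  have e4 : AdjoinRoot.mk (gp k) p * (AdjoinRoot.root (gp k)) ^ (2 * (d - a0)) = 0 := by
    show AdjoinRoot.mk (gp k) (∑ e ∈ f.support.filter (fun e : Fin 3 →₀ ℕ => e 0 = a0),
      Polynomial.C (MvPolynomial.coeff e f) * Polynomial.X ^ (2 - e 1)) * _ = 0
    rw [map_sum, Finset.sum_filter, Finset.sum_mul, ← Finset.sum_congr rfl hterm,
      ← Finset.sum_mul, e3, zero_mul]
  have hunit : IsUnit ((AdjoinRoot.root (gp k)) ^ (2 * (d - a0))) := by
    have : IsUnit (AdjoinRoot.root (gp k)) := ⟨tu k, rfl⟩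
    exact this.pow _
  have e5 : AdjoinRoot.mk (gp k) p = 0 := by
    rwa [hunit.mul_left_eq_zero] at e4
  rw [AdjoinRoot.mk_eq_zero] at e5
  have hpdeg : p.natDegree < (gp k).natDegree := by
    rw [gp_deg]
    have h2 : p.natDegree ≤ 2 := by
      apply Polynomial.natDegree_sum_le_of_forall_le
      intro e _
      exact le_trans (Polynomial.natDegree_C_mul_X_pow_le _ _) (Nat.sub_le _ _)
    omega
  have e6 : p = 0 := Polynomial.eq_zero_of_dvd_of_natDegree_lt e5 hpdeg
  have e7 := congrArg (Polynomial.coeff · (2 - e0 1)) e6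
  simp only [Polynomial.coeff_zero] at e7
  have e8 : p.coeff (2 - e0 1) = MvPolynomial.coeff e0 f := by
    show (∑ e ∈ f.support.filter (fun e : Fin 3 →₀ ℕ => e 0 = a0),
      Polynomial.C (MvPolynomial.coeff e f) * Polynomial.X ^ (2 - e 1)).coeff (2 - e0 1) = _
    rw [Polynomial.finsetSum_coeff]
    rw [Finset.sum_eq_single_of_mem e0 (Finset.mem_filter.mpr ⟨he0, hea⟩)]
    · rw [Polynomial.coeff_C_mul, Polynomial.coeff_X_pow, if_pos rfl, mul_one]
    · intro e he hee
      rw [Finset.mem_filter] at he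
      rw [Polynomial.coeff_C_mul, Polynomial.coeff_X_pow, if_neg, mul_zero]
      intro h9
      apply hee
      have q1 := hdeg e he.1
      have q2 := hdeg e0 he0
      have q3 := hs e he.1
      have q4 := hs e0 he0
      have q5 := he.2
      ext i
      fin_cases i
      · show e 0 = e0 0
        omega
      · show e 1 = e0 1
        omega
      · show e 2 = e0 2
        omega
  rw [e8] at e7
  exact MvPolynomial.mem_support_iff.mp he0 e7

end

end Pool.Agent.Helper78.Tate.IND
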