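import Pool.Agent.Helper97.Tate.Goals

/-!
# FewPoints (MP_d3128a_ag): packet TATE-RED (reduction modulo the cubic)
-/

set_option autoImplicit false

namespace Pool.Agent.Helper78.Tate.RED

open Pool.Agent.Helper97.Tate
open MvPolynomial

/-- the property to be proved -/
def Q {K : Type} [Field K] (α β γ : K) (d : ℕ) (z : MvPolynomial (Fin 3) K) : Prop :=
  ∃ y r : MvPolynomial (Fin 3) K,
    z = cub α β γ * y + r ∧ r.IsHomogeneous d ∧ ∀ e : Fin 3 →₀ ℕ, coeff e r ≠ 0 → e 1 ≤ 2

theorem Q_zero {K : Type} [Field K] (α β γ : K) (d : ℕ) : Q α β γ d 0 :=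
  ⟨0, 0, by simp, isHomogeneous_zero _ _ _, by simp⟩

theorem Q_add {K : Type} [Field K] {α β γ : K} {d : ℕ} {z z' : MvPolynomial (Fin 3) K}
    (h : Q α β γ d z) (h' : Q α β γ d z') : Q α β γ d (z + z') := by
  obtain ⟨y, r, h1, h2, h3⟩ := h
  obtain ⟨y', r', h1', h2', h3'⟩ := h'
  refine ⟨y + y', r + r', ?_, h2.add h2', ?_⟩
  · rw [h1, h1']
    ring
  · intro e he
    rw [coeff_add] at he
    by_cases h4 : coeff e r = 0
    · rw [h4, zero_add] at he
      exact h3' e he
    · exact h3 e h4

theorem Q_smul {K : Type} [Field K] {α β γ : K} {d : ℕ} (c : K) {z : MvPolynomial (Fin 3) K}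
    (h : Q α β γ d z) : Q α β γ d (C c * z) := by
  obtain ⟨y, r, h1, h2, h3⟩ := h
  refine ⟨C c * y, C c * r, ?_, ?_, ?_⟩
  · rw [h1]
    ring
  · have := (isHomogeneous_C (Fin 3) c).mul h2
    rwa [zero_add] at this
  · intro e he
    rw [coeff_C_mul] at he
    exact h3 e (right_ne_zero_of_mul he)

theorem Q_cub {K : Type} [Field K] {α β γ : K} {d : ℕ} (y : MvPolynomial (Fin 3) K) :
    Q α β γ d (cub α β γ * y) :=
  ⟨y, 0, by simp, isHomogeneous_zero _ _ _, by simp⟩

theorem X_pow_mul_mon {K : Type} [Field K] (i : Fin 3) (n : ℕ) (e : Fin 3 →₀ ℕ) :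
    (X i : MvPolynomial (Fin 3) K) ^ n * monomial e 1 = monomial (Finsupp.single i n + e) 1 := by
  rw [X_pow_eq_monomial, monomial_mul, one_mul]

theorem Q_mon {K : Type} [Field K] (α β γ : K) (hβ : β ≠ 0) (d : ℕ) (b : ℕ) :
    ∀ e : Fin 3 →₀ ℕ, e 1 = b → e.degree = d → Q α β γ d (monomial e (1 : K)) := by
  induction b using Nat.strong_induction_on with
  | _ b ih =>
    intro e he hd
    by_cases hb : b ≤ 2
    · refine ⟨0, monomial e 1, by simp, ?_, ?_⟩
      · exact isHomogeneous_monomial 1 hd
      · intro e' he'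
        rw [coeff_monomial] at he'
        by_cases h : e = e'
        · rw [← h, he]
          exact hb
        · rw [if_neg h] at he'
          exact absurd rfl he'
    · obtain ⟨e', he'⟩ : ∃ e' : Fin 3 →₀ ℕ, e = Finsupp.single 1 3 + e' := by
        have hle : Finsupp.single 1 3 ≤ e := by
          rw [Finsupp.single_le_iff]
          omega
        exact ⟨e - Finsupp.single 1 3, (add_tsub_cancel_of_le hle).symm⟩
      have hb' : e' 1 + 3 = b := by
        rw [← he, he']
        simp [add_comm]
      have hd' : e'.degree + 3 = d := by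
        rw [← hd, he', map_add, Finsupp.degree_single, add_comm]
      have hdeg : ∀ i, (Finsupp.single i 3 + e').degree = d := by
        intro i
        rw [map_add, Finsupp.degree_single]
        omega
      have q0 : Q α β γ d (monomial (Finsupp.single 0 3 + e') (1 : K)) := by
        refine ih (e' 1) (by omega) _ ?_ (hdeg 0)
        simp
      have q2 : Q α β γ d (monomial (Finsupp.single 2 3 + e') (1 : K)) := by
        refine ih (e' 1) (by omega) _ ?_ (hdeg 2)
        simp
      have q1 : Q α β γ d (monomial (Finsupp.single 0 1 + (Finsupp.single 1 1 +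
          (Finsupp.single 2 1 + e'))) (1 : K)) := by
        refine ih (1 + e' 1) (by omega) _ ?_ ?_
        · simp
        · rw [map_add, map_add, map_add, Finsupp.degree_single, Finsupp.degree_single,
            Finsupp.degree_single]
          omega
      have key : monomial e (1 : K) = C β⁻¹ * (monomial (Finsupp.single 0 1 + (Finsupp.single 1 1 +
          (Finsupp.single 2 1 + e'))) (1 : K) + (C (-α) * monomial (Finsupp.single 0 3 + e') (1 : K) +
          (C (-γ) * monomial (Finsupp.single 2 3 + e') (1 : K) +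
            cub α β γ * (- monomial e' (1 : K))))) := by
        rw [he', ← X_pow_mul_mon, ← X_pow_mul_mon, ← X_pow_mul_mon, ← X_pow_mul_mon,
          ← X_pow_mul_mon, ← X_pow_mul_mon]
        unfold cub
        have hc : (C β⁻¹ : MvPolynomial (Fin 3) K) * C β = 1 := by
          rw [← C_mul, inv_mul_cancel₀ hβ, C_1]
        rw [C_neg, C_neg]
        linear_combination (- (X 1 : MvPolynomial (Fin 3) K) ^ 3 * monomial e' (1 : K)) * hc
      rw [key]
      exact Q_smul _ (Q_add q1 (Q_add (Q_smul _ q0) (Q_add (Q_smul _ q2) (Q_cub _))))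

/-- **RED** -/
theorem t : S_RED := by
  intro K _ α β γ hβ d z hz
  have hQ : Q α β γ d z := by
    rw [z.as_sum]
    have hS : ∀ S : Finset (Fin 3 →₀ ℕ), S ⊆ z.support →
        Q α β γ d (∑ v ∈ S, monomial v (coeff v z)) := by
      intro S
      classical
      induction S using Finset.induction_on with
      | empty =>
        intro _
        rw [Finset.sum_empty]
        exact Q_zero _ _ _ _
      | insert v S hv ih =>
        intro hS
        rw [Finset.sum_insert hv]
        refine Q_add ?_ (ih (fun x hx => hS (Finset.mem_insert_of_mem hx)))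
        have hvs : coeff v z ≠ 0 := mem_support_iff.mp (hS (Finset.mem_insert_self _ _))
        have h1 : monomial v (coeff v z) = C (coeff v z) * monomial v (1 : K) := by
          rw [C_mul_monomial, mul_one]
        rw [h1]
        apply Q_smul
        refine Q_mon α β γ hβ d _ v rfl ?_
        rw [Finsupp.degree_eq_weight_one]
        exact hz hvs
    exact hS _ (Finset.Subset.refl _)
  obtain ⟨y, r, h1, h2, h3⟩ := hQ
  exact ⟨y, r, h1, h2, fun e he => h3 e (mem_support_iff.mp he)⟩

end Pool.Agent.Helper78.Tate.RED
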