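import Pool.Agent.Helper97.Tate.Goals

/-!
# FewPoints (MP_d3128a_ag): packet TATE-VAA (multiplicities of products)
-/

set_option autoImplicit false

namespace Pool.Agent.Helper78.Tate.VAA

open Pool.Agent.Helper97.Tate

/-- order at least `a` at the origin -/
def Od {K : Type} [Field K] (a : ℕ) (f : MvPolynomial (Fin 3) K) : Prop :=
  ∀ e : Fin 3 →₀ ℕ, e.degree < a → MvPolynomial.coeff e f = 0

theorem od_mul {K : Type} [Field K] (a b : ℕ) (f g : MvPolynomial (Fin 3) K) (hf : Od a f)
    (hg : Od b g) : Od (a + b) (f * g) := by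
  intro e he
  rw [MvPolynomial.coeff_mul]
  apply Finset.sum_eq_zero
  intro x hx
  have h1 : x.1 + x.2 = e := Finset.HasAntidiagonal.mem_antidiagonal.mp hx
  have h2 : x.1.degree + x.2.degree = e.degree := by
    rw [← h1, map_add]
  rcases Nat.lt_or_ge x.1.degree a with h | h
  · rw [hf _ h, zero_mul]
  · rw [hg _ (by omega), mul_zero]

theorem od_div {K : Type} [Field K] (o m : ℕ) (f h : MvPolynomial (Fin 3) K) (hf : Od o f)
    (hf' : ¬ Od (o + 1) f) (hfh : Od (o + m) (f * h)) : Od m h := by
  classical
  by_contra hcon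
  have hex : ∃ t : ℕ, ∃ e : Fin 3 →₀ ℕ, e.degree = t ∧ MvPolynomial.coeff e h ≠ 0 ∧ t < m := by
    unfold Od at hcon
    push Not at hcon
    obtain ⟨e, he, hne⟩ := hcon
    exact ⟨e.degree, e, rfl, hne, he⟩
  have hmin := fun t (ht : t < Nat.find hex) => Nat.find_min hex ht
  obtain ⟨e0, he0, hne0, ht0⟩ := Nat.find_spec hex
  generalize Nat.find hex = t at hmin he0 ht0
  have hh : Od t h := by
    intro e he
    by_contra hne
    exact hmin e.degree he ⟨e, rfl, hne, by omega⟩
  unfold Od at hf'
  push Not at hf'
  obtain ⟨e1, he1, hne1⟩ := hf'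
  have he1' : e1.degree = o := by
    by_contra hlt
    exact hne1 (hf e1 (by omega))
  have hF : MvPolynomial.homogeneousComponent o f ≠ 0 := by
    intro h0
    have := congrArg (MvPolynomial.coeff e1) h0
    rw [MvPolynomial.coeff_homogeneousComponent, if_pos he1', MvPolynomial.coeff_zero] at this
    exact hne1 this
  have hH : MvPolynomial.homogeneousComponent t h ≠ 0 := by
    intro h0
    have := congrArg (MvPolynomial.coeff e0) h0
    rw [MvPolynomial.coeff_homogeneousComponent, if_pos he0, MvPolynomial.coeff_zero] at this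
    exact hne0 this
  obtain ⟨e, he⟩ := MvPolynomial.ne_zero_iff.mp (mul_ne_zero hF hH)
  have hdeg : e.degree = o + t := by
    have := ((MvPolynomial.homogeneousComponent_isHomogeneous o f).mul
      (MvPolynomial.homogeneousComponent_isHomogeneous t h)) he
    rw [Finsupp.degree_eq_weight_one]
    exact this
  apply he
  have h1 : MvPolynomial.coeff e (MvPolynomial.homogeneousComponent o f *
      MvPolynomial.homogeneousComponent t h) = MvPolynomial.coeff e (f * h) := by
    rw [MvPolynomial.coeff_mul, MvPolynomial.coeff_mul]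
    apply Finset.sum_congr rfl
    intro x hx
    have h1 : x.1 + x.2 = e := Finset.HasAntidiagonal.mem_antidiagonal.mp hx
    have h2 : x.1.degree + x.2.degree = e.degree := by
      rw [← h1, map_add]
    rw [MvPolynomial.coeff_homogeneousComponent, MvPolynomial.coeff_homogeneousComponent]
    by_cases h3 : x.1.degree = o
    · rw [if_pos h3, if_pos (by omega)]
    · rw [if_neg h3, zero_mul]
      rcases Nat.lt_or_ge x.1.degree o with h | h
      · rw [hf _ h, zero_mul]
      · rw [hh _ (by omega), mul_zero]
  rw [h1]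
  exact hfh e (by omega)

/-- **VAA** -/
theorem t : S_VAA := by
  intro K _ P
  refine ⟨?_, ?_, ?_, ?_⟩
  · intro a b z z' hz hz' e he
    rw [map_mul]
    exact od_mul a b _ _ hz hz' e he
  · intro o m g z hg hg' hgz e he
    refine od_div o m (tau P g) (tau P z) hg hg' ?_ e he
    intro e' he'
    rw [← map_mul]
    exact hgz e' he'
  · intro a b hab z hz e he
    exact hz e (by omega)
  · intro z e he
    exact absurd he (Nat.not_lt_zero _)

end Pool.Agent.Helper78.Tate.VAA
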